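import Pool.Agent.H329R3.NLS.Orig

set_option autoImplicit false

open Set

namespace Pool.Agent.Results.MP_12ab79_an.AnalyticBlowup

/-- `a`, read as the family of Fourier coefficients of `u(x) = ∑ a k e^{2πikx}`, lies in `A_ν` -/
def InA (ν : ℝ) (a : ℤ → ℂ) : Prop := Summable fun k : ℤ => ‖a k‖ * ν ^ k.natAbs

/-- the norm `∑ |a k| ν^{|k|}` of `A_ν` -/
noncomputable def normA (ν : ℝ) (a : ℤ → ℂ) : ℝ := ∑' k : ℤ, ‖a k‖ * ν ^ k.natAbs

/-- the Fourier coefficients of `u²` -/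
noncomputable def sq (a : ℤ → ℂ) (k : ℤ) : ℂ := ∑' j : ℤ, a j * a (k - j)

/-- `a t k`, `t ∈ [0, T]`, are the Fourier coefficients of a solution of `-i u_t = u_xx + u²` on
`[0, T]`: every `a t` is absolutely summable and each coefficient satisfies
`a_k' = i (-(2πk)² a_k + (u²)_k)` at every time of `[0, T]` -/
def Solves (T : ℝ) (a : ℝ → ℤ → ℂ) : Prop :=
  (∀ t ∈ Icc 0 T, InA 1 (a t)) ∧
  ∀ t ∈ Icc 0 T, ∀ k : ℤ, HasDerivWithinAt (fun s => a s k)
    (Complex.I * (-((2 * Real.pi * k) ^ 2) * a t k + sq (a t) k)) (Icc 0 T) t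

/-- the Fourier coefficients of the real function `2 c cos(2πmx)` -/
noncomputable def cosDatum (m : ℕ) (c : ℝ) (k : ℤ) : ℂ :=
  if k = m ∨ k = -m then (c : ℂ) else 0

/-- For every `ν > 1` there are real trigonometric polynomials `u₀ = 2 c cos(2πmx)`, with `c` as
small as desired, for which `-i u_t = u_xx + u²`, `u(0) = u₀`, has no solution of bounded
`A_ν` norm on `[0, T]`, where `T` is as small as desired -/
theorem result (ν : ℝ) (hν : 1 < ν) (ε : ℝ) (hε : 0 < ε) :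
    ∃ (m : ℕ) (c T : ℝ), 1 ≤ m ∧ 0 < c ∧ c < ε ∧ 0 < T ∧ T < ε ∧
      (∀ x : ℝ, ∑' k : ℤ, cosDatum m c k * Complex.exp (2 * Real.pi * Complex.I * k * x) =
        ((2 * c * Real.cos (2 * Real.pi * m * x) : ℝ) : ℂ)) ∧
      ¬ ∃ a : ℝ → ℤ → ℂ, a 0 = cosDatum m c ∧ Solves T a ∧
        ∃ K : ℝ, ∀ t ∈ Icc 0 T, InA ν (a t) ∧ normA ν (a t) ≤ K := by
  obtain ⟨m, hm, b, hb, hbs, hL, hc, hT⟩ := Pool.Agent.H329R3.NLS.exists_param hν hε
  obtain ⟨p, hp, hno⟩ := Pool.Agent.H329R3.NLS.orig_contra hν hm hb hbs hL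
  have hm0 : (0 : ℝ) < m := by exact_mod_cast hm
  have hpi := Real.pi_pos
  have hp0 : 0 < p := lt_of_lt_of_le (by linarith) hp.1
  refine ⟨m, (2 * Real.pi * m) ^ 2 * √p, 2 * Real.pi / (2 * Real.pi * m) ^ 2, hm, by positivity,
    lt_of_le_of_lt ?_ hc, by positivity, hT, ?_, ?_⟩
  · exact mul_le_mul_of_nonneg_left (Real.sqrt_le_sqrt hp.2) (by positivity)
  · intro x
    set c : ℝ := (2 * Real.pi * m) ^ 2 * √p
    have hne : (m : ℤ) ≠ -m := by omega
    rw [tsum_eq_sum (s := {(m : ℤ), -(m : ℤ)}) (by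
      intro k hk
      have hk' : ¬ (k = m ∨ k = -m) := by simpa using hk
      rw [cosDatum, if_neg hk', zero_mul])]
    rw [Finset.sum_pair hne]
    have d1 : cosDatum m c (m : ℤ) = (c : ℂ) := if_pos (Or.inl rfl)
    have d2 : cosDatum m c (-(m : ℤ)) = (c : ℂ) := if_pos (Or.inr rfl)
    rw [d1, d2]
    push_cast
    rw [Complex.cos]
    have e1 : Complex.exp (2 * Real.pi * Complex.I * m * x) =
        Complex.exp (2 * Real.pi * m * x * Complex.I) := by congr 1; ring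
    have e2 : Complex.exp (2 * Real.pi * Complex.I * -m * x) =
        Complex.exp (-(2 * Real.pi * m * x) * Complex.I) := by congr 1; ring
    rw [e1, e2]
    ring
  · rintro ⟨a, h0, ⟨-, hsol⟩, K, hK⟩
    apply hno
    refine ⟨a, ?_, ?_, K, ?_⟩
    · intro k t ht
      refine (hsol t ht k).congr_deriv ?_
      have e : Pool.Agent.H329R3.NLS.conv (a t) (a t) k = sq (a t) k := rfl
      rw [e]
      push_cast
      ring
    · intro k
      rw [h0]
      rfl
    · intro t ht F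
      have h1 := (hK t ht).1.sum_le_tsum F (fun k _ => by positivity)
      refine le_trans (le_of_eq ?_) (h1.trans (hK t ht).2)
      refine Finset.sum_congr rfl fun k _ => ?_
      rw [norm_mul, norm_pow, Complex.norm_real, Real.norm_of_nonneg (by linarith)]

end Pool.Agent.Results.MP_12ab79_an.AnalyticBlowup
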